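import Pool.Agent.Helper37_BSig.Stmts

/-!
# BSIG: the enumeration is closed (`ClosedStmt`)
-/

namespace Pool.Agent.BSig

open Filter Cardinal

namespace H11

theorem nset_testBit (s : Finset ℕ) (x : ℕ) : (nset s).testBit x = true ↔ x ∈ s := by
  have h1 : Nat.testBit (∑ y ∈ s, 2 ^ y) x = true ↔ x ∈ (∑ y ∈ s, 2 ^ y).bitIndices := by
    rw [Nat.mem_bitIndices]
  have h2 : (∑ y ∈ s, 2 ^ y).bitIndices.toFinset = s := Finset.toFinset_bitIndices_sum_two_pow s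
  unfold nset
  rw [h1, ← List.mem_toFinset, h2]

theorem mem_nset (s : Finset ℕ) (p : ℕ) : Mem (p : MM) ((nset s : ℕ) : MM) ↔ p ∈ s := by
  rw [natCast_mk, natCast_mk, mem_mk]
  constructor
  · intro h
    obtain ⟨n, hn⟩ := h.exists
    exact (nset_testBit s p).1 hn
  · intro h
    exact Eventually.of_forall fun n => (nset_testBit s p).2 h

theorem lit_true (z : MM) : lit (z, true) = 2 * z + 1 := by simp [lit]

theorem lit_false (z : MM) : lit (z, false) = 2 * z := by simp [lit]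

theorem le_two_mul (z : MM) : z ≤ 2 * z := by
  rw [two_mul]; exact le_add_left' _ _

theorem le_lit (p : MM × Bool) : p.1 ≤ lit p := by
  rw [lit]; exact (le_two_mul _).trans (le_add_right' _ _)

theorem lit_le (p : MM × Bool) : lit p ≤ 2 * p.1 + 1 := by
  rcases p with ⟨z, b⟩
  cases b
  · rw [lit_false]; exact le_add_right' _ _
  · rw [lit_true]

theorem label_lt {p : MM × Bool} {F : MM} (h : Mem (lit p) F) : p.1 < F :=
  (le_lit p).trans_lt (mem_lt h)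

theorem lt_pow2_of_mem {f b : MM} (h : ∀ u, Mem u f → u < b) : f < pow2 b := by
  have hI : Int1 (fun u => Mem u f) := by
    apply Int1.of_delta0
    exact IsDelta0.mem (IsTerm.var 0) (IsTerm.param f)
  obtain ⟨e, he, hm⟩ := hI.code b
  have : f = e := mem_ext fun x => by
    rw [hm]
    exact ⟨fun hx => ⟨h x hx, hx⟩, fun hx => hx.2⟩
  rw [this]; exact he

theorem lt_add_one' {x y : MM} (h : x ≤ y) : x < y + 1 :=
  (PAExp.discrete _ _).2 (PAExp.add_le_add' _ _ 1 h)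

/-- `TupE` is internal -/
theorem tupE_int {φ : (Fin 5 → MM) → Prop} (hφ : IsDelta0 φ) (x : ℕ → MM) (D : Dat) (i0 : ℕ) :
    Int1 (fun w => TupE φ x D i0 w) := by
  apply Int1.of_delta0
  have h : ∀ w, TupE φ x D i0 w ↔ (Fun w ∧ (∀ p, p ≤ w → ∀ z, z ≤ w → (Mem (pr p z) w →
      ((∀ q ∈ D.Fx, (p = (q.1 : MM) → z = x q.2)) ∧
        ((∀ q ∈ D.Fx, p ≠ (q.1 : MM)) → ∀ j ∈ Finset.range i0, z ≠ x j)))) ∧
      ∃ t, t ≤ aa D.l ∧
      ((∃ F, F ≤ aa D.l ∧ (LitSub F w (nset D.Sg : ℕ) (0 : MM) (D.nF : MM) ∧ Crd F (D.l : MM) ∧ ¬ Cfl F F ∧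
        Der φ (aa D.l) (D.l : MM) (D.m : MM) F t)) ∧
      ∀ e ∈ D.C, ∃ s, s ≤ pow2 (2 * w + 2) ∧ (LitSub s w (nset D.Sg : ℕ) (e.2.1 : MM) (e.2.2.1 : MM) ∧
        ¬ Cfl s s ∧ Kil φ (aa e.1) (e.1 : MM) (e.2.2.2 : MM) t s))) := by
    intro w
    unfold TupE
    refine and_congr Iff.rfl (and_congr ?_ Iff.rfl)
    constructor
    · intro H p _ z _ hm
      refine ⟨(H p z hm).1, fun hq j hj => (H p z hm).2 hq j (Finset.mem_range.1 hj)⟩
    · intro H p z hm
      have h1 : p ≤ w := (le_pr_left p z).trans (mem_lt hm).le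
      have h2 : z ≤ w := (le_pr_right p z).trans (mem_lt hm).le
      refine ⟨(H p h1 z h2 hm).1, fun hq j hj => (H p h1 z h2 hm).2 hq j (Finset.mem_range.2 hj)⟩
  refine IsDelta0.congr ?_ (fun v => h (v 0))
  have hw : IsTerm (fun v : Fin 1 → MM => v 0) := IsTerm.var 0
  refine (IsDelta0.func hw).and (IsDelta0.and ?_ ?_)
  · refine IsDelta0.all hw ?_
    refine IsDelta0.all hw.tail ?_
    refine (IsDelta0.mem (IsTerm.pr (IsTerm.var 1) (IsTerm.var 0)) hw.tail.tail).imp ?_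
    refine IsDelta0.and ?_ (IsDelta0.imp ?_ ?_)
    · refine IsDelta0.finsetAll _ _ fun q _ => ?_
      exact (IsDelta0.eq (IsTerm.var 1) (IsTerm.param _)).imp
        (IsDelta0.eq (IsTerm.var 0) (IsTerm.param _))
    · refine IsDelta0.finsetAll _ _ fun q _ => ?_
      exact IsDelta0.ne (IsTerm.var 1) (IsTerm.param _)
    · refine IsDelta0.finsetAll _ _ fun q _ => ?_
      exact IsDelta0.ne (IsTerm.var 0) (IsTerm.param _)
  · refine IsDelta0.ex (IsTerm.param _) ?_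
    refine IsDelta0.and ?_ ?_
    · refine IsDelta0.ex (IsTerm.param _) ?_
      refine (IsDelta0.litSub (IsTerm.var 0) hw.tail.tail (IsTerm.param _) (IsTerm.param _)
        (IsTerm.param _)).and ?_
      refine (IsDelta0.crd (IsTerm.var 0) (IsTerm.param _)).and ?_
      refine (IsDelta0.cfl (IsTerm.var 0) (IsTerm.var 0)).not.and ?_
      exact hφ.der (IsTerm.param _) (IsTerm.param _) (IsTerm.param _) (IsTerm.var 0)
        (IsTerm.var 1)
    · refine IsDelta0.finsetAll _ _ fun e _ => ?_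
      refine IsDelta0.ex (hw.tail.two_mul.add_nat 2).pow2 ?_
      refine (IsDelta0.litSub (IsTerm.var 0) hw.tail.tail (IsTerm.param _) (IsTerm.param _)
        (IsTerm.param _)).and ?_
      refine (IsDelta0.cfl (IsTerm.var 0) (IsTerm.var 0)).not.and ?_
      exact IsDelta0.kil hφ (IsTerm.param _) (IsTerm.param _) (IsTerm.param _) (IsTerm.var 1)
        (IsTerm.var 0)

section RB

variable (hR : RepBasics)
include hR

theorem rep_fin {w : MM} {s : MM} {S : Finset (MM × Bool)} {Sg : Finset ℕ} {v : ℕ → MM} {lo hi n : ℕ}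
    (hw : ∀ p : ℕ, p < n → Mem (pr (p : MM) (v p)) w) (hhi : hi ≤ n)
    (hS : (S : Set (MM × Bool)) ⊆ lits Sg v lo hi) (hr : Rep s S) :
    LitSub s w (nset Sg : ℕ) (lo : MM) (hi : MM) := by
  intro u _ hu
  obtain ⟨⟨z, b⟩, rfl⟩ := hR.1 u
  have hmem : (z, b) ∈ (S : Set (MM × Bool)) := by
    rw [hr]; exact hu
  obtain ⟨p, h1, h2, h3, h4⟩ := hS hmem
  have h3' : z = v p := h3
  have h5 : Mem (pr (p : MM) z) w := by rw [h3']; exact hw p (by omega)
  refine ⟨p, (le_pr_left _ _).trans (mem_lt h5).le, z, (le_pr_right _ _).trans (mem_lt h5).le,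
    natCast_le.2 h1, natCast_lt.2 h2, h5, ?_⟩
  have h4' : b = true ↔ p ∈ Sg := h4
  cases b
  · right
    rw [mem_nset]
    exact ⟨fun h => by simpa using h4'.2 h, lit_false z⟩
  · left
    rw [mem_nset]
    exact ⟨h4'.1 rfl, lit_true z⟩

/-- the actual vector gives a tuple -/
theorem tupE_of_RR {φ : (Fin 5 → MM) → Prop} {x : ℕ → MM} {D : Dat} (hD : D.Ok) {v : ℕ → MM}
    {t : MM} (h : RR φ D v t) (hfx : ∀ q ∈ D.Fx, v q.1 = x q.2)
    (hfr : ∀ p < D.n, ¬ D.Fixed p → ∀ i, v p ≠ x i) (i0 : ℕ) : ∃ w, TupE φ x D i0 w := by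
  classical
  obtain ⟨w, hw⟩ := exists_code_finset ((Finset.range D.n).image fun p : ℕ => pr (p : MM) (v p))
  have hw' : ∀ u, Mem u w ↔ ∃ p : ℕ, p < D.n ∧ u = pr (p : MM) (v p) := by
    intro u
    rw [hw, Finset.mem_image]
    constructor
    · rintro ⟨p, hp, rfl⟩
      exact ⟨p, Finset.mem_range.1 hp, rfl⟩
    · rintro ⟨p, hp, rfl⟩
      exact ⟨p, Finset.mem_range.2 hp, rfl⟩
  have hwv : ∀ p : ℕ, p < D.n → Mem (pr (p : MM) (v p)) w := fun p hp => (hw' _).2 ⟨p, hp, rfl⟩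
  have hwlt : ∀ p : ℕ, p < D.n → v p ≤ w := fun p hp =>
    (le_pr_right _ _).trans (mem_lt (hwv p hp)).le
  obtain ⟨h1, ⟨F, hF1, hF2, hF3, f, hf1, hf2, hf3⟩, h3⟩ := h
  refine ⟨w, ?_, ?_, t, h1, ⟨f, hf2, rep_fin hR hwv hD.1 (by simpa using hF1) hf1,
    (hR.2.2.2.2.2.1 f D.l).2 ⟨F, hf1, hF2⟩, ?_, hf3⟩, ?_⟩
  · intro p _ z _ z' _ hz hz'
    obtain ⟨a, _, ha⟩ := (hw' _).1 hz
    obtain ⟨b, _, hb⟩ := (hw' _).1 hz'
    obtain ⟨e1, e2⟩ := pr_inj.1 ha
    obtain ⟨e3, e4⟩ := pr_inj.1 hb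
    have : a = b := natCast_inj.1 (e1.symm.trans e3)
    rw [e2, e4, this]
  · intro p z hz
    obtain ⟨a, ha, hb⟩ := (hw' _).1 hz
    obtain ⟨rfl, rfl⟩ := pr_inj.1 hb
    constructor
    · intro q hq hp
      have : a = q.1 := natCast_inj.1 hp
      rw [this]; exact hfx q hq
    · intro hq j _
      refine hfr a ha ?_ j
      rintro ⟨i, hi⟩
      exact hq _ hi rfl
  · rw [hR.2.2.2.2.1]
    rw [← hf1]
    exact hF3
  · intro e he
    obtain ⟨S, hS1, hS2, g, hg1, hg2⟩ := h3 e he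
    refine ⟨g, ?_, rep_fin hR hwv (hD.2.1 e he) hS1 hg1, ?_, hg2⟩
    · refine (lt_pow2_of_mem fun u hu => ?_).le
      obtain ⟨⟨z, b⟩, rfl⟩ := hR.1 u
      have hmem : (z, b) ∈ (S : Set (MM × Bool)) := by
        rw [hg1]; exact hu
      obtain ⟨p, p1, p2, p3, p4⟩ := hS1 hmem
      have p3' : z = v p := p3
      have hz : z ≤ w := by rw [p3']; exact hwlt p (lt_of_lt_of_le p2 (hD.2.1 e he))
      have h2 : (2 : MM) * z ≤ 2 * w := by
        have := PAExp.mul_le_mul' _ _ 2 hz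
        rwa [mul_comm z, mul_comm w] at this
      have h4 := lt_add_one' ((lit_le (z, b)).trans (PAExp.add_le_add' _ _ 1 h2))
      have e : (2 : MM) * w + 2 = 2 * w + 1 + 1 := by
        rw [add_assoc, one_add_one_eq_two]
      rw [e]; exact h4
    · rw [hR.2.2.2.2.1, ← hg1]
      exact hS2

/-- reading a literal of `LitSub` -/
theorem litSub_read {s w : MM} {Sg : Finset ℕ} {lo hi : ℕ}
    (h : LitSub s w (nset Sg : ℕ) (lo : MM) (hi : MM)) {z : MM} {b : Bool} (hz : Mem (lit (z, b)) s) :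
    ∃ p : ℕ, lo ≤ p ∧ p < hi ∧ Mem (pr (p : MM) z) w ∧ (b = true ↔ p ∈ Sg) := by
  obtain ⟨p, _, y, _, h1, h2, h3, h4⟩ := h _ (mem_lt hz).le hz
  obtain ⟨k, hk, rfl⟩ := lt_natCast_iff.1 h2
  rw [mem_nset, ← lit_true, ← lit_false] at h4
  rcases h4 with ⟨h4, h5⟩ | ⟨h4, h5⟩
  · have := hR.2.1 _ _ h5
    obtain ⟨rfl, rfl⟩ := Prod.mk.inj this
    exact ⟨k, natCast_le.1 h1, hk, h3, by simp [h4]⟩
  · have := hR.2.1 _ _ h5
    obtain ⟨rfl, rfl⟩ := Prod.mk.inj this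
    exact ⟨k, natCast_le.1 h1, hk, h3, by simp [h4]⟩

/-- a tuple gives a vector -/
theorem RR_of_tupE {φ : (Fin 5 → MM) → Prop} {x : ℕ → MM} {D : Dat} (hD : D.Ok) {β : ℕ → ℕ}
    (hβ1 : ∀ p < D.nF, D.l ≤ β p)
    (hβ2 : ∀ e ∈ D.C, ∀ p, e.2.1 ≤ p → p < e.2.2.1 → e.1 ≤ β p) {i0 : ℕ} {w : MM}
    (h : TupE φ x D i0 w) {v : ℕ → MM} (hfx : ∀ q ∈ D.Fx, v q.1 = x q.2)
    (hfr : ∀ p < D.n, ¬ D.Fixed p → ∀ z, Mem (pr (p : MM) z) w → z ≤ aa (β p) → v p = z) :
    ∃ t, RR φ D v t := by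
  classical
  obtain ⟨hfun, hfix, t, ht, ⟨F, hF, hF1, hF2, hF3, hF4⟩, hC⟩ := h
  have hval : ∀ p < D.n, ∀ z, Mem (pr (p : MM) z) w → z ≤ aa (β p) → z = v p := by
    intro p hp z hz hzb
    by_cases hfp : D.Fixed p
    · obtain ⟨i, hi⟩ := hfp
      rw [(hfix _ _ hz).1 (p, i) hi rfl, hfx (p, i) hi]
    · exact (hfr p hp hfp z hz hzb).symm
  refine ⟨t, ht, ?_, ?_⟩
  · obtain ⟨S, hS1, hS2⟩ := (hR.2.2.2.2.2.1 F D.l).1 hF2
    have hF1' : LitSub F w (nset D.Sg : ℕ) ((0 : ℕ) : MM) (D.nF : MM) := by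
      rw [Nat.cast_zero]; exact hF1
    refine ⟨S, ?_, hS2, ?_, F, hS1, hF, hF4⟩
    · rintro ⟨z, b⟩ hzb
      rw [hS1] at hzb
      obtain ⟨p, p1, p2, p3, p4⟩ := litSub_read hR hF1' hzb
      refine ⟨p, p1, p2, ?_, p4⟩
      refine hval p (lt_of_lt_of_le p2 hD.1) z p3 ?_
      exact ((label_lt hzb).le.trans hF).trans (aa_mono (hβ1 p p2))
    · rw [hR.2.2.2.2.1, ← hS1] at hF3
      exact hF3
  · intro e he
    obtain ⟨s, _, hs1, hs2, hs3⟩ := hC e he
    let Sset : Set (MM × Bool) := {q | Mem (lit q) s ∧ q.1 ≤ aa e.1}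
    have hfin : Sset.Finite := by
      have hsub : Sset ⊆ ⋃ p ∈ (Finset.range D.n : Finset ℕ), {q : MM × Bool | q.1 = v p} ∩ Sset := by
        rintro ⟨z, b⟩ ⟨h1, h2⟩
        obtain ⟨p, p1, p2, p3, p4⟩ := litSub_read hR hs1 h1
        have hpn : p < D.n := lt_of_lt_of_le p2 (hD.2.1 e he)
        rw [Set.mem_iUnion₂]
        refine ⟨p, Finset.mem_range.2 hpn, ?_, h1, h2⟩
        exact hval p hpn z p3 (le_trans h2 (aa_mono (hβ2 e he p p1 p2)))
      refine Set.Finite.subset ?_ hsub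
      refine Set.Finite.biUnion (Finset.finite_toSet _) fun p _ => ?_
      refine Set.Finite.subset ((Set.finite_singleton (v p)).prod (Set.finite_univ (α := Bool))) ?_
      rintro ⟨z, b⟩ ⟨h1, -⟩
      exact ⟨h1, Set.mem_univ _⟩
    obtain ⟨S, hS⟩ : ∃ S : Finset (MM × Bool), (S : Set (MM × Bool)) = Sset :=
      ⟨hfin.toFinset, hfin.coe_toFinset⟩
    obtain ⟨f, hf⟩ := hR.2.2.1 S
    have hfm : ∀ q : MM × Bool, Mem (lit q) f ↔ Mem (lit q) s ∧ q.1 ≤ aa e.1 := by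
      intro q
      have : q ∈ LS f ↔ q ∈ Sset := by rw [← hf, hS]
      exact this
    refine ⟨S, ?_, ?_, f, hf, ?_⟩
    · rintro ⟨z, b⟩ hzb
      rw [hS] at hzb
      obtain ⟨h1, h2⟩ := hzb
      obtain ⟨p, p1, p2, p3, p4⟩ := litSub_read hR hs1 h1
      have hpn : p < D.n := lt_of_lt_of_le p2 (hD.2.1 e he)
      exact ⟨p, p1, p2, hval p hpn z p3 (le_trans h2 (aa_mono (hβ2 e he p p1 p2))), p4⟩
    · rintro ⟨z, b, h1, h2⟩
      rw [hS] at h1 h2
      apply hs2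
      rw [hR.2.2.2.2.1]
      exact ⟨z, b, h1.1, h2.1⟩
    · intro G hG hG'
      have hc := hs3 G hG hG'
      rw [hR.2.2.2.2.1] at hc ⊢
      obtain ⟨z, b, h1, h2⟩ := hc
      refine ⟨z, b, h1, ?_⟩
      show Mem (lit (z, !b)) f
      rw [hfm]
      exact ⟨h2, (label_lt h1).le.trans hG⟩

end RB

end H11

/-- the enumeration is closed -/
theorem closedStmt_proof (hR : RepBasics) : ClosedStmt := by
  classical
  intro φ hφ x H D hD β hβ1 hβ2 v t hRR hb hfx hfr K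
  -- base index
  obtain ⟨B0, hB0⟩ : ∃ B0 : ℕ, ∀ q ∈ D.Fx, q.2 < B0 :=
    ⟨D.Fx.sup (fun q => q.2) + 1, fun q hq => Nat.lt_succ_of_le (Finset.le_sup (f := fun q => q.2) hq)⟩
  -- least tuples
  have hleast : ∀ i0, ∃ w, TupE φ x D i0 w ∧ ∀ w', w' < w → ¬ TupE φ x D i0 w' := by
    intro i0
    obtain ⟨w, h1, h2⟩ := (H11.tupE_int hφ x D i0).least (H11.tupE_of_RR hR hD hRR hfx hfr i0)
    exact ⟨w, h1, fun w' hw' h => absurd (h2 w' h) (not_le.2 hw')⟩
  choose W hW1 hW2 using hleast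
  have huniq : ∀ i0 (p : ℕ) z z', Mem (pr (p : MM) z) (W i0) → Mem (pr (p : MM) z') (W i0) →
      z = z' := by
    intro i0 p z z' h1 h2
    exact (hW1 i0).1 p ((le_pr_left _ _).trans (mem_lt h1).le) z
      ((le_pr_right _ _).trans (mem_lt h1).le) z' ((le_pr_right _ _).trans (mem_lt h2).le) h1 h2
  -- all labels are in the range
  have hrange : ∀ i0, B0 ≤ i0 → ∀ p < D.n, ∀ z, Mem (pr (p : MM) z) (W i0) → ∃ i, x i = z := by
    intro i0 hi0 p hp z hz
    exact H D i0 p hD (fun q hq => lt_of_lt_of_le (hB0 q hq) hi0) hp z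
      ⟨W i0, hW1 i0, hW2 i0, hz⟩
  have hnext : ∀ i0, ∃ i1, B0 ≤ i0 → ∀ p < D.n, ∀ z, Mem (pr (p : MM) z) (W i0) →
      ∃ i < i1, x i = z := by
    intro i0
    by_cases hi0 : B0 ≤ i0
    · have hc : ∀ p : ℕ, ∃ m : ℕ, p < D.n → ∀ z, Mem (pr (p : MM) z) (W i0) → ∃ i < m, x i = z := by
        intro p
        by_cases hp : p < D.n ∧ ∃ z, Mem (pr (p : MM) z) (W i0)
        · obtain ⟨hp, z, hz⟩ := hp
          obtain ⟨i, hi⟩ := hrange i0 hi0 p hp z hz
          refine ⟨i + 1, fun _ z' hz' => ⟨i, Nat.lt_succ_self i, ?_⟩⟩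
          rw [hi]; exact huniq i0 p z z' hz hz'
        · exact ⟨0, fun hp' z hz => absurd ⟨hp', z, hz⟩ hp⟩
      choose m hm using hc
      refine ⟨(Finset.range D.n).sup m, fun _ p hp z hz => ?_⟩
      obtain ⟨i, hi, he⟩ := hm p hp z hz
      exact ⟨i, lt_of_lt_of_le hi (Finset.le_sup (f := m) (Finset.mem_range.2 hp)), he⟩
    · exact ⟨0, fun h => absurd h hi0⟩
  choose nx hnx using hnext
  -- the sequence of indices
  let I : ℕ → ℕ := fun k => Nat.rec B0 (fun _ i => max i (nx i)) k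
  have hI0 : I 0 = B0 := rfl
  have hIs : ∀ k, I (k + 1) = max (I k) (nx (I k)) := fun k => rfl
  have hImono : Monotone I := monotone_nat_of_le_succ fun k => by
    rw [hIs]; exact le_max_left _ _
  have hIB : ∀ k, B0 ≤ I k := fun k => by
    rw [← hI0]; exact hImono (Nat.zero_le k)
  have hdisj : ∀ k k', k < k' → ∀ p < D.n, ∀ p' < D.n, ¬ D.Fixed p' → ∀ z,
      Mem (pr (p : MM) z) (W (I k)) → ¬ Mem (pr (p' : MM) z) (W (I k')) := by
    intro k k' hk p hp p' hp' hf z hz hz'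
    obtain ⟨i, hi, he⟩ := hnx (I k) (hIB k) p hp z hz
    have h1 : i < I k' := by
      have h2 : I (k + 1) ≤ I k' := hImono hk
      rw [hIs] at h2
      exact lt_of_lt_of_le hi ((le_max_right _ _).trans h2)
    refine ((hW1 (I k')).2.1 p' z hz').2 ?_ i h1 he.symm
    intro q hq hpq
    have : p' = q.1 := natCast_inj.1 hpq
    apply hf
    rw [this]
    exact ⟨q.2, hq⟩
  -- used labels
  have hused : ∃ N0 : ℕ, ∀ n : ℕ, N0 ≤ n → ∀ k < K, ∀ p < D.n,
      ¬ Mem (pr (p : MM) (n : MM)) (W (I k)) := by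
    have h1 : ∀ k p : ℕ, ∃ m : ℕ, ∀ n : ℕ, m ≤ n → ¬ Mem (pr (p : MM) (n : MM)) (W (I k)) := by
      intro k p
      by_cases h : ∃ n : ℕ, Mem (pr (p : MM) (n : MM)) (W (I k))
      · obtain ⟨n, hn⟩ := h
        refine ⟨n + 1, fun n' hn' h' => ?_⟩
        have := natCast_inj.1 (huniq (I k) p _ _ hn h')
        omega
      · push Not at h
        exact ⟨0, fun n _ => h n⟩
    choose m hm using h1
    refine ⟨(Finset.range K).sup fun k => (Finset.range D.n).sup fun p => m k p,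
      fun n hn k hk p hp => hm k p n (le_trans ?_ hn)⟩
    refine le_trans ?_ (Finset.le_sup (f := fun k => (Finset.range D.n).sup fun p => m k p)
      (Finset.mem_range.2 hk))
    exact Finset.le_sup (f := fun p => m k p) (Finset.mem_range.2 hp)
  obtain ⟨N0, hN0⟩ := hused
  -- the vectors
  let v' : ℕ → ℕ → MM := fun k p =>
    if h : D.Fixed p then x h.choose
    else if h : ∃ z, Mem (pr (p : MM) z) (W (I k)) ∧ z ≤ aa (β p) then h.choose
    else ((N0 + k : ℕ) : MM)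
  have hv1 : ∀ k, ∀ q ∈ D.Fx, v' k q.1 = x q.2 := by
    intro k q hq
    have hf : D.Fixed q.1 := ⟨q.2, hq⟩
    have : v' k q.1 = x hf.choose := by
      simp only [v']; rw [dif_pos hf]
    rw [this, hD.2.2.2 q.1 hf.choose q.2 hf.choose_spec hq]
  have hv2 : ∀ k, ∀ p < D.n, ¬ D.Fixed p → ∀ z, Mem (pr (p : MM) z) (W (I k)) → z ≤ aa (β p) →
      v' k p = z := by
    intro k p hp hf z hz hzb
    have h : ∃ z, Mem (pr (p : MM) z) (W (I k)) ∧ z ≤ aa (β p) := ⟨z, hz, hzb⟩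
    have e : v' k p = h.choose := by
      simp only [v']; rw [dif_neg hf, dif_pos h]
    rw [e]
    exact huniq (I k) p _ _ h.choose_spec.1 hz
  have hv3 : ∀ k, ∀ p, ¬ D.Fixed p → (Mem (pr (p : MM) (v' k p)) (W (I k)) ∧ v' k p ≤ aa (β p)) ∨
      v' k p = ((N0 + k : ℕ) : MM) := by
    intro k p hf
    by_cases h : ∃ z, Mem (pr (p : MM) z) (W (I k)) ∧ z ≤ aa (β p)
    · left
      have e : v' k p = h.choose := by
        simp only [v']; rw [dif_neg hf, dif_pos h]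
      rw [e]; exact h.choose_spec
    · right
      simp only [v']; rw [dif_neg hf, dif_neg h]
  have ht : ∀ k, ∃ t', RR φ D (v' k) t' := fun k =>
    H11.RR_of_tupE hR hD hβ1 hβ2 (hW1 (I k)) (hv1 k) (hv2 k)
  choose t' ht' using ht
  refine ⟨v', t', fun k _ => ⟨ht' k, ?_, hv1 k⟩, ?_⟩
  · intro p hp
    by_cases hf : D.Fixed p
    · obtain ⟨i, hi⟩ := hf
      have h1 := hv1 k (p, i) hi
      have h2 := hfx (p, i) hi
      simp only at h1 h2
      rw [h1, ← h2]; exact hb p hp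
    · rcases hv3 k p hf with h | h
      · exact h.2
      · rw [h]; exact (infl_aa _ _).le
  · have key : ∀ k < K, ∀ k' < K, k < k' → ∀ p < D.n, ¬ D.Fixed p → ∀ p' < D.n, ¬ D.Fixed p' →
        v' k p ≠ v' k' p' := by
      intro k hk k' hk' hkk p hp hf p' hp' hf' he
      rcases hv3 k p hf with h | h
      · rcases hv3 k' p' hf' with h' | h'
        · rw [← he] at h'
          exact hdisj k k' hkk p hp p' hp' hf' _ h.1 h'.1
        · rw [he, h'] at h
          exact hN0 (N0 + k') (by omega) k hk p hp h.1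
      · rcases hv3 k' p' hf' with h' | h'
        · rw [← he, h] at h'
          exact hN0 (N0 + k) (by omega) k' hk' p' hp' h'.1
        · rw [h, h'] at he
          have := natCast_inj.1 he
          omega
    intro k hk k' hk' hkk p hp hf p' hp' hf'
    rcases Nat.lt_or_gt_of_ne hkk with h | h
    · exact key k hk k' hk' h p hp hf p' hp' hf'
    · exact (key k' hk' k hk h p' hp' hf' p hp hf).symm

end Pool.Agent.BSig
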