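import Pool.Agent.Helper37_BSig.Stmts

/-!
# BSIG: Lemma C
-/

namespace Pool.Agent.BSig

open Filter Cardinal

namespace H11

theorem IntP.and' {k : ℕ} {P Q : (Fin k → MM) → Prop} (h : IntP P) (h' : IntP Q) :
    IntP (fun v => P v ∧ Q v) := by
  obtain ⟨Pn, hP⟩ := h; obtain ⟨Qn, hQ⟩ := h'
  exact ⟨fun n v => Pn n v ∧ Qn n v, fun f hf => by beta_reduce; rw [hP, hQ, eventually_and]⟩

theorem lits_congr {Sg Sg' : Set ℕ} {v v' : ℕ → MM} {lo hi : ℕ}
    (h : ∀ p, p < hi → v p = v' p) (hs : ∀ p, p < hi → (p ∈ Sg ↔ p ∈ Sg')) :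
    lits Sg v lo hi ⊆ lits Sg' v' lo hi := by
  rintro q ⟨p, h1, h2, h3, h4⟩
  exact ⟨p, h1, h2, h3.trans (h p h2), h4.trans (hs p h2)⟩

/-- comparison of data -/
theorem RR_mono {φ : (Fin 5 → MM) → Prop} {D D' : Dat} {v v' : ℕ → MM} {t : MM} {n : ℕ}
    (hl : D.l = D'.l) (hnF : D.nF = D'.nF) (hn1 : D'.nF ≤ n) (hn2 : ∀ e ∈ D'.C, e.2.2.1 ≤ n)
    (hC : D'.C ⊆ D.C) (hm : ∀ F, Der φ (aa D.l) D.l D.m F t → Der φ (aa D.l) D.l D'.m F t)
    (hv : ∀ p, p < n → v p = v' p) (hs : ∀ p, p < n → (p ∈ D.Sg ↔ p ∈ D'.Sg))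
    (h : RR φ D v t) : RR φ D' v' t := by
  obtain ⟨h1, ⟨F, h2, h3, h4, f, h5, h6, h7⟩, h8⟩ := h
  refine ⟨hl ▸ h1, ⟨F, ?_, hl ▸ h3, h4, f, h5, hl ▸ h6, ?_⟩, ?_⟩
  · refine h2.trans ?_
    rw [hnF]
    exact lits_congr (fun p hp => hv p (by omega)) (fun p hp => hs p (by omega))
  · have := hm _ h7
    rw [hl] at this
    exact this
  · intro e he
    obtain ⟨s, s1, s2, s3⟩ := h8 e (hC he)
    have hhi := hn2 e he
    refine ⟨s, s1.trans (lits_congr (fun p hp => hv p (by omega)) (fun p hp => hs p (by omega))),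
      s2, s3⟩

/-- a sequence of blocks of literals -/
theorem exists_blocks (A : ℕ → Finset (MM × Bool)) (junk : MM × Bool) :
    ∃ (b : ℕ → ℕ) (g : ℕ → MM × Bool), b 0 = 0 ∧ StrictMono b ∧
      (∀ j, ∀ q ∈ A j, ∃ p, b j ≤ p ∧ p < b (j + 1) ∧ g p = q) ∧
      (∀ j p, b j ≤ p → p < b (j + 1) → g p = junk ∨ g p ∈ A j) := by
  classical
  let G : ℕ → List (MM × Bool) := fun j => junk :: (A j).toList
  let b : ℕ → ℕ := fun j => Nat.rec 0 (fun k i => i + (G k).length) j
  have hb0 : b 0 = 0 := rfl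
  have hbs : ∀ j, b (j + 1) = b j + (G j).length := fun j => rfl
  have hG : ∀ j, 0 < (G j).length := fun j => by simp [G]
  have hmono : StrictMono b := strictMono_nat_of_lt_succ fun j => by
    rw [hbs]; have := hG j; omega
  have hex : ∀ p, ∃ j, p < b (j + 1) := fun p => ⟨p, by
    have := hmono.id_le (p + 1)
    simp only [id] at this
    omega⟩
  let J : ℕ → ℕ := fun p => Nat.find (hex p)
  have hJ : ∀ j p, b j ≤ p → p < b (j + 1) → J p = j := by
    intro j p h1 h2
    apply le_antisymm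
    · exact Nat.find_min' (hex p) h2
    · by_contra hc
      rw [not_le] at hc
      have h3 : p < b (J p + 1) := Nat.find_spec (hex p)
      have h4 : b (J p + 1) ≤ b j := hmono.monotone hc
      omega
  refine ⟨b, fun p => (G (J p)).getD (p - b (J p)) junk, hb0, hmono, ?_, ?_⟩
  · intro j q hq
    have hq' : q ∈ G j := List.mem_cons_of_mem _ (Finset.mem_toList.2 hq)
    obtain ⟨i, hi, he⟩ := List.getElem_of_mem hq'
    refine ⟨b j + i, by omega, by rw [hbs]; omega, ?_⟩
    have hJi := hJ j (b j + i) (by omega) (by rw [hbs]; omega)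
    simp only [hJi, Nat.add_sub_cancel_left]
    rw [List.getD_eq_getElem _ _ hi]; exact he
  · intro j p h1 h2
    have hJi := hJ j p h1 h2
    simp only [hJi]
    have hi : p - b j < (G j).length := by rw [hbs] at h2; omega
    rw [List.getD_eq_getElem _ _ hi]
    have := List.getElem_mem hi
    rcases List.mem_cons.1 this with h | h
    · exact Or.inl h
    · exact Or.inr (Finset.mem_toList.1 h)

end H11

/-- Lemma C -/
theorem lemmaC_proof (hD : LemmaD) (hFR : FreshReal) (hRI : RRInt) (hK : KilStmt)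
    (hR : RepBasics) : LemmaC := by
  classical
  intro φ hφ x hx T c hc hcard h1 h2 h3 ts hts
  by_contra hcon
  push Not at hcon
  obtain ⟨hK1, hK2, hK3, hK4, hK5⟩ := hK φ hφ
  -- the part of `c` on the range of `x`
  set cL : Set (MM × Bool) := {p | p ∈ c ∧ ∃ i, p.1 = x i} with hcL
  have hcLc : Consis cL := by
    rintro ⟨z, b, hz, hz'⟩
    exact hc ⟨z, b, hz.1, hz'.1⟩
  -- killers
  have hkill : ∀ l, ∃ s : Finset (MM × Bool), Consis (s : Set (MM × Bool)) ∧
      ¬ Conf (s : Set (MM × Bool)) cL ∧ ∀ F ∈ Fam φ l ts, Conf (F : Set (MM × Bool)) s := by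
    intro l
    by_contra hc'
    push Not at hc'
    obtain ⟨r, hr1, hr2⟩ := hD MM l (Fam φ l ts) (fun F hF => hF.1) cL hcLc (by
      intro s hs1 hs2
      exact hc' s hs1 hs2)
    exact hcon l r (fun p hp => (hr1 hp).1) (fun p hp => (hr1 hp).2) hr2
  choose s hs1 hs2 hs3 using hkill
  -- precisions
  have hrepS : ∀ l, ∃ f, Rep f (s l) ∧ ∃ q : ℕ, Kil φ (aa l) (l : MM) (q : MM) ts f := by
    intro l
    obtain ⟨f, hf⟩ := hR.2.2.1 (s l)
    refine ⟨f, hf, (hK4 l ts f).1 ?_⟩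
    intro S hS
    have := hs3 l S hS
    rw [hf] at this
    exact this
  choose cs hcs q hq using hrepS
  -- the derivation
  obtain ⟨l00, F0, hF0, hF0c⟩ := h2 ts hts
  obtain ⟨k0, hk0⟩ := exists_le_aa ts
  have hmonoFam : ∀ l l' t, l ≤ l' → Fam φ l t ⊆ Fam φ l' t := by
    intro l l' t hl
    induction hl with
    | refl => exact subset_rfl
    | step _ ih => exact ih.trans (hK1 _ _)
  set l0 := max l00 k0 with hl0
  have hF0' : F0 ∈ Fam φ l0 ts := hmonoFam _ _ _ (le_max_left _ _) hF0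
  have hts0 : ts ≤ aa l0 := hk0 l0 (le_max_right _ _)
  -- junk literal
  obtain ⟨junk, hjx, hjc⟩ : ∃ junk : MM × Bool, junk.1 = x 0 ∧ (junk.1, !junk.2) ∉ c := by
    by_cases h : (x 0, false) ∈ c
    · refine ⟨(x 0, false), rfl, fun h' => hc ⟨x 0, false, h, h'⟩⟩
    · exact ⟨(x 0, true), rfl, h⟩
  -- blocks
  obtain ⟨b, g, hb0, hbm, hb1, hb2⟩ := H11.exists_blocks
    (fun j => match j with
      | 0 => F0
      | j + 1 => s j) junk
  set v : ℕ → MM := fun p => (g p).1 with hv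
  set SgS : Set ℕ := {p | (g p).2 = true} with hSgS
  -- bounds
  choose kk hkk using fun p => exists_le_aa (v p)
  have hblk : ∀ p, ∃ j, b j ≤ p ∧ p < b (j + 1) := by
    intro p
    have hex : ∃ j, p < b (j + 1) := ⟨p, by
      have := hbm.id_le (p + 1)
      simp only [id] at this
      omega⟩
    refine ⟨Nat.find hex, ?_, Nat.find_spec hex⟩
    by_contra hcc
    rw [not_le] at hcc
    rcases Nat.eq_zero_or_pos (Nat.find hex) with h0 | h0
    · rw [h0, hb0] at hcc; omega
    · have : p < b (Nat.find hex - 1 + 1) := by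
        rwa [Nat.sub_add_cancel h0]
      have := Nat.find_min' hex this
      omega
  choose blk hblk1 hblk2 using hblk
  have hblkle : ∀ j p, p < b (j + 1) → blk p ≤ j := by
    intro j p hp
    by_contra hcc
    rw [not_le] at hcc
    have : b (j + 1) ≤ b (blk p) := hbm.monotone hcc
    have := hblk1 p
    omega
  have hblkge : ∀ j p, b j ≤ p → j ≤ blk p := by
    intro j p hp
    by_contra hcc
    rw [not_le] at hcc
    have : b (blk p + 1) ≤ b j := hbm.monotone hcc
    have := hblk2 p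
    omega
  set β : ℕ → ℕ := fun p => max (kk p) (max l0 (blk p)) with hβ
  have hβv : ∀ p, v p ≤ aa (β p) := fun p => hkk p _ (le_max_left _ _)
  -- fixed positions
  set fixp : ℕ → Prop := fun p => ∃ i, v p = x i with hfixp
  set ix : ℕ → ℕ := fun p => if h : fixp p then h.choose else 0 with hix
  have hixs : ∀ p, fixp p → v p = x (ix p) := by
    intro p hp
    have : ix p = hp.choose := by
      simp only [hix]; rw [dif_pos hp]
    rw [this]; exact hp.choose_spec
  -- the data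
  let DN : ℕ → Dat := fun N =>
    { l := l0
      m := N
      nF := b 1
      n := b (N + 1)
      C := (Finset.range N).image fun j => (j, b (j + 1), b (j + 2), q j)
      Sg := (Finset.range (b (N + 1))).filter fun p => p ∈ SgS
      Fx := ((Finset.range (b (N + 1))).filter fun p => fixp p).image fun p => (p, ix p) }
  have hDC : ∀ N e, e ∈ (DN N).C ↔ ∃ j < N, e = (j, b (j + 1), b (j + 2), q j) := by
    intro N e
    show e ∈ (Finset.range N).image _ ↔ _
    rw [Finset.mem_image]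
    constructor
    · rintro ⟨j, hj, rfl⟩; exact ⟨j, Finset.mem_range.1 hj, rfl⟩
    · rintro ⟨j, hj, rfl⟩; exact ⟨j, Finset.mem_range.2 hj, rfl⟩
  have hDF : ∀ N q', q' ∈ (DN N).Fx ↔ q'.1 < b (N + 1) ∧ fixp q'.1 ∧ q'.2 = ix q'.1 := by
    intro N q'
    show q' ∈ ((Finset.range (b (N + 1))).filter fun p => fixp p).image (fun p => (p, ix p)) ↔ _
    rw [Finset.mem_image]
    constructor
    · rintro ⟨p, hp, rfl⟩
      rw [Finset.mem_filter, Finset.mem_range] at hp
      exact ⟨hp.1, hp.2, rfl⟩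
    · rintro ⟨h1, h2, h3⟩
      refine ⟨q'.1, Finset.mem_filter.2 ⟨Finset.mem_range.2 h1, h2⟩, ?_⟩
      rw [← h3]
  have hDS : ∀ N p, p < b (N + 1) → (p ∈ (DN N).Sg ↔ p ∈ SgS) := by
    intro N p hp
    show p ∈ (Finset.range (b (N + 1))).filter (fun p => p ∈ SgS) ↔ _
    rw [Finset.mem_filter, Finset.mem_range]
    exact ⟨fun h => h.2, fun h => ⟨hp, h⟩⟩
  have hfixN : ∀ N p, p < b (N + 1) → ((DN N).Fixed p ↔ fixp p) := by
    intro N p hp
    constructor
    · rintro ⟨i, hi⟩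
      exact ((hDF N _).1 hi).2.1
    · intro h
      exact ⟨ix p, (hDF N _).2 ⟨hp, h, rfl⟩⟩
  have hOk : ∀ N, (DN N).Ok := by
    intro N
    refine ⟨hbm.monotone (by omega), ?_, ?_, ?_⟩
    · intro e he
      obtain ⟨j, hj, rfl⟩ := (hDC N e).1 he
      exact hbm.monotone (by omega)
    · intro q' hq'
      exact ((hDF N q').1 hq').1
    · intro p i j hi hj
      exact ((hDF N _).1 hi).2.2.trans ((hDF N _).1 hj).2.2.symm
  -- the actual vector is a tuple
  have hlitsS : ∀ N j, j ≤ N → ∀ q' : MM × Bool, (∃ p, b j ≤ p ∧ p < b (j + 1) ∧ g p = q') →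
      q' ∈ lits ((DN N).Sg : Set ℕ) v (b j) (b (j + 1)) := by
    rintro N j hj q' ⟨p, hp1, hp2, rfl⟩
    refine ⟨p, hp1, hp2, rfl, ?_⟩
    have hpn : p < b (N + 1) := lt_of_lt_of_le hp2 (hbm.monotone (by omega))
    exact (hDS N p hpn).symm
  have hRR : ∀ N, RR φ (DN N) v ts := by
    intro N
    refine ⟨hts0, ⟨F0, ?_, hF0'.1, hF0'.2.1, ?_⟩, ?_⟩
    · intro q' hq'
      have := hlitsS N 0 (Nat.zero_le _) q' (hb1 0 q' hq')
      rw [hb0] at this
      exact this
    · obtain ⟨f, hf1, hf2, hf3⟩ := hF0'.2.2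
      exact ⟨f, hf1, hf2, hf3 N⟩
    · intro e he
      obtain ⟨j, hj, rfl⟩ := (hDC N e).1 he
      refine ⟨s j, ?_, hs1 j, cs j, hcs j, hq j⟩
      intro q' hq'
      exact hlitsS N (j + 1) hj q' (hb1 (j + 1) q' hq')
  -- fresh realization
  let RN : ℕ → (ℕ → MM) → Prop := fun N w =>
    RR φ (DN N) (fun p => w (p + 1)) (w 0) ∧ (∀ p ∈ Finset.range (b (N + 1)), w (p + 1) ≤ aa (β p)) ∧
      ∀ q' ∈ (DN N).Fx, w (q'.1 + 1) = x q'.2
  obtain ⟨X, hX1, hX2⟩ := hFR (fun N => b (N + 1) + 1) RN {p | ∃ p', p = p' + 1 ∧ ¬ fixp p'}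
    (fun N => by
      have := hbm.monotone (show N + 1 ≤ N + 1 + 1 by omega)
      show b (N + 1) + 1 ≤ b (N + 1 + 1) + 1
      omega)
    (by
      rintro N w w' hw ⟨a1, a2, a3⟩
      have e0 : w 0 = w' 0 := hw 0 (Nat.succ_pos _)
      have e1 : ∀ p, p < b (N + 1) → w (p + 1) = w' (p + 1) := fun p hp => hw (p + 1) (by
        show p + 1 < b (N + 1) + 1
        omega)
      refine ⟨?_, ?_, ?_⟩
      · rw [← e0]
        exact H11.RR_mono (n := b (N + 1)) rfl rfl (hOk N).1 (hOk N).2.1 subset_rfl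
          (fun F h => h) e1 (fun p _ => Iff.rfl) a1
      · intro p hp
        rw [← e1 p (Finset.mem_range.1 hp)]
        exact a2 p hp
      · intro q' hq'
        rw [← e1 q'.1 ((hOk N).2.2.1 q' hq')]
        exact a3 q' hq')
    (by
      intro N
      refine H11.IntP.and' (hRI φ hφ (DN N) (hOk N)) (H11.IntP.and' ?_ ?_)
      · refine IntP.of_delta0 (IsDelta0.finsetAll _ _ fun p hp => ?_)
        have hp' : p + 1 < b (N + 1) + 1 := by
          have := Finset.mem_range.1 hp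
          omega
        have e : ∀ w : Fin (b (N + 1) + 1) → MM, ext w (p + 1) = w ⟨p + 1, hp'⟩ := by
          intro w; simp only [ext]; rw [dif_pos hp']
        simp only [e]
        exact IsDelta0.le (IsTerm.var _) (IsTerm.param _)
      · refine IntP.of_delta0 (IsDelta0.finsetAll _ _ fun q' hq' => ?_)
        have hp' : q'.1 + 1 < b (N + 1) + 1 := by
          have := (hOk N).2.2.1 q' hq'
          have h' : (DN N).n = b (N + 1) := rfl
          omega
        have e : ∀ w : Fin (b (N + 1) + 1) → MM, ext w (q'.1 + 1) = w ⟨q'.1 + 1, hp'⟩ := by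
          intro w; simp only [ext]; rw [dif_pos hp']
        simp only [e]
        exact IsDelta0.eq (IsTerm.var _) (IsTerm.param _))
    (by
      rintro N w ⟨a1, a2, a3⟩
      have hle : b (N + 1) ≤ b (N + 1 + 1) := hbm.monotone (by omega)
      refine ⟨?_, ?_, ?_⟩
      · refine H11.RR_mono (D := DN (N + 1)) (D' := DN N) (n := b (N + 1)) rfl rfl (hOk N).1
          (hOk N).2.1 ?_ ?_ (fun p _ => rfl) ?_ a1
        · intro e he
          obtain ⟨j, hj, rfl⟩ := (hDC N e).1 he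
          exact (hDC (N + 1) _).2 ⟨j, by omega, rfl⟩
        · intro F hF
          exact hK2 _ _ _ _ _ _ (natCast_le.2 (Nat.le_succ N)) hF
        · intro p hp
          rw [hDS (N + 1) p (by omega), hDS N p hp]
      · intro p hp
        refine a2 p (Finset.mem_range.2 ?_)
        have := Finset.mem_range.1 hp
        omega
      · intro q' hq'
        obtain ⟨b1, b2, b3⟩ := (hDF N q').1 hq'
        exact a3 q' ((hDF (N + 1) q').2 ⟨by omega, b2, b3⟩))
    (by
      intro N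
      refine ⟨max l0 ((Finset.range (b (N + 1))).sup β), ?_⟩
      rintro w ⟨a1, a2, a3⟩ p hp
      rcases p with _ | p
      · exact a1.1.trans (aa_mono (le_max_left _ _))
      · have hp' : p ∈ Finset.range (b (N + 1)) := Finset.mem_range.2 (by
          have : p + 1 < b (N + 1) + 1 := hp
          omega)
        exact (a2 p hp').trans (aa_mono ((Finset.le_sup (f := β) hp').trans (le_max_right _ _))))
    (by
      intro N K
      obtain ⟨v', t', hv', hd⟩ := hx (DN N) (hOk N) β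
        (fun p _ => (le_max_left _ _).trans (le_max_right _ _))
        (by
          intro e he p hp1 hp2
          obtain ⟨j, hj, rfl⟩ := (hDC N e).1 he
          have : j + 1 ≤ blk p := hblkge (j + 1) p hp1
          have h5 : blk p ≤ β p := (le_max_right _ _).trans (le_max_right _ _)
          show j ≤ β p
          omega)
        v ts (hRR N) (fun p _ => hβv p)
        (by
          intro q' hq'
          obtain ⟨b1, b2, b3⟩ := (hDF N q').1 hq'
          rw [b3]; exact hixs _ b2)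
        (by
          intro p hp hf i hi
          exact hf ((hfixN N p hp).2 ⟨i, hi⟩)) K
      refine ⟨fun k p => match p with
        | 0 => t' k
        | p + 1 => v' k p, ?_, ?_⟩
      · intro k hk
        obtain ⟨c1, c2, c3⟩ := hv' k hk
        exact ⟨c1, fun p hp => c2 p (Finset.mem_range.1 hp), c3⟩
      · rintro k hk k' hk' hkk _ ⟨p, rfl, hp⟩ hpn _ ⟨p', rfl, hp'⟩ hpn'
        have e1 : p < b (N + 1) := by
          have : p + 1 < b (N + 1) + 1 := hpn
          omega
        have e2 : p' < b (N + 1) := by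
          have : p' + 1 < b (N + 1) + 1 := hpn'
          omega
        exact hd k hk k' hk' hkk p e1 (fun h => hp ((hfixN N p e1).1 h)) p' e2
          (fun h => hp' ((hfixN N p' e2).1 h)))
    (Prod.fst '' c) (lt_of_le_of_lt mk_image_le hcard)
  -- the new fact
  set t' := X 0 with ht'
  set w : ℕ → MM := fun p => X (p + 1) with hw
  have hfresh : ∀ p, ¬ fixp p → ∀ b', (w p, b') ∉ c := by
    intro p hp b' hm
    refine hX2 (p + 1) ⟨p, rfl, hp⟩ ⟨p, ?_⟩ ⟨_, hm, rfl⟩
    show p + 1 < b (p + 1) + 1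
    have := hbm.id_le (p + 1)
    simp only [id] at this
    omega
  have hfixw : ∀ p, fixp p → w p = v p := by
    intro p hp
    have hpn : p < b (p + 1) := by
      have := hbm.id_le (p + 1)
      simp only [id] at this
      omega
    have := (hX1 p).2.2 (p, ix p) ((hDF p _).2 ⟨hpn, hp, rfl⟩)
    rw [hixs p hp]
    exact this
  have hcomp : ∀ N j, j ≤ N → ∀ q' : MM × Bool,
      q' ∈ lits ((DN N).Sg : Set ℕ) w (b j) (b (j + 1)) →
      ¬ (∃ p, b j ≤ p ∧ p < b (j + 1) ∧ fixp p ∧ ((g p).1, !(g p).2) ∈ c) →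
      (q'.1, !q'.2) ∉ c := by
    rintro N j hj ⟨z, b'⟩ ⟨p, p1, p2, p3, p4⟩ hno hm
    have hpn : p < b (N + 1) := lt_of_lt_of_le p2 (hbm.monotone (by omega))
    have p3' : z = w p := p3
    have p4' : b' = true ↔ p ∈ (DN N).Sg := p4
    rw [hDS N p hpn] at p4'
    have p5 : b' = (g p).2 := by
      have : p ∈ SgS ↔ (g p).2 = true := Iff.rfl
      rw [this] at p4'
      exact Bool.eq_iff_iff.2 p4'
    by_cases hf : fixp p
    · apply hno
      refine ⟨p, p1, p2, hf, ?_⟩
      rw [← p5]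
      have : z = (g p).1 := p3'.trans (hfixw p hf)
      rw [← this]; exact hm
    · have hm' : (z, !b') ∈ c := hm
      rw [p3'] at hm'
      exact hfresh p hf _ hm'
  -- the derivation of t'
  have hF' : ∃ F ∈ Fam φ l0 t', ¬ Conf (F : Set (MM × Bool)) c := by
    have hfin : (lits SgS w 0 (b 1)).Finite := by
      have : lits SgS w 0 (b 1) ⊆ ((Finset.range (b 1)).image w : Set MM) ×ˢ (Set.univ : Set Bool) := by
        rintro ⟨z, b'⟩ ⟨p, _, p2, p3, _⟩
        refine ⟨?_, Set.mem_univ _⟩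
        rw [Finset.mem_coe, Finset.mem_image]
        exact ⟨p, Finset.mem_range.2 p2, p3.symm⟩
      exact Set.Finite.subset ((Finset.finite_toSet _).prod Set.finite_univ) this
    have hFN : ∀ N : ℕ, ∃ F : Finset (MM × Bool), F ∈ hfin.toFinset.powerset ∧ F.card ≤ l0 ∧
        Consis (F : Set (MM × Bool)) ∧ ∃ f, Rep f F ∧ f ≤ aa l0 ∧
          Der φ (aa l0) (l0 : MM) (N : MM) f t' := by
      intro N
      obtain ⟨-, ⟨F, f1, f2, f3, f, f4, f5, f6⟩, -⟩ := (hX1 N).1
      refine ⟨F, ?_, f2, f3, f, f4, f5, f6⟩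
      rw [Finset.mem_powerset]
      intro q' hq'
      rw [Set.Finite.mem_toFinset]
      have := f1 hq'
      refine H11.lits_congr (fun p _ => rfl) (fun p hp => ?_) this
      exact hDS N p (lt_of_lt_of_le hp (hbm.monotone (by omega)))
    choose FN hFN1 hFN2 hFN3 fN hfN1 hfN2 hfN3 using hFN
    obtain ⟨F, hF⟩ : ∃ F, ∃ᶠ N in atTop, FN N = F := by
      by_contra hcc
      push Not at hcc
      have h5 : ∀ F ∈ hfin.toFinset.powerset, ∀ᶠ N in atTop, FN N ≠ F := fun F _ => hcc F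
      have h6 := (Filter.eventually_all_finset _).2 h5
      obtain ⟨N, hN⟩ := h6.exists
      exact hN (FN N) (hFN1 N) rfl
    obtain ⟨N1, hN1⟩ := hF.exists
    have hmem : F ∈ Fam φ l0 t' := by
      refine ⟨hN1 ▸ hFN2 N1, hN1 ▸ hFN3 N1, fN N1, hN1 ▸ hfN1 N1, hfN2 N1, ?_⟩
      intro m
      obtain ⟨N2, hN2, hN2'⟩ := (Filter.frequently_atTop.1 hF) m
      have e : fN N2 = fN N1 := by
        apply hR.2.2.2.1 _ _ F
        · rw [← hN2']; exact hfN1 N2
        · rw [← hN1]; exact hfN1 N1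
      have := hfN3 N2
      rw [e] at this
      exact hK2 _ _ _ _ _ _ (natCast_le.2 hN2) this
    refine ⟨F, hmem, ?_⟩
    rintro ⟨z, b', hz1, hz2⟩
    have hzl : (z, b') ∈ lits ((DN 0).Sg : Set ℕ) w (b 0) (b (0 + 1)) := by
      have h7 := hFN1 N1
      rw [hN1, Finset.mem_powerset] at h7
      have h8 := h7 hz1
      rw [Set.Finite.mem_toFinset] at h8
      rw [hb0]
      exact H11.lits_congr (fun p _ => rfl) (fun p hp => (hDS 0 p hp).symm) h8
    refine hcomp 0 0 le_rfl (z, b') hzl ?_ hz2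
    rintro ⟨p, p1, p2, p3, p4⟩
    rcases hb2 0 p p1 p2 with h | h
    · rw [h] at p4; exact hjc p4
    · exact hF0c ⟨(g p).1, (g p).2, h, p4⟩
  obtain ⟨F', hF'1, hF'2⟩ := hF'
  have ht'T : t' ∈ T := h1 l0 t' F' hF'1 hF'2
  -- killers of t'
  obtain ⟨l, hl⟩ := h3 t' ht'T
  obtain ⟨S, S1, S2, f, S3, S4⟩ := (hX1 (l + 1)).1.2.2 (l, b (l + 1), b (l + 2), q l)
    ((hDC (l + 1) _).2 ⟨l, Nat.lt_succ_self l, rfl⟩)
  have hSc : ¬ Conf (S : Set (MM × Bool)) c := by
    rintro ⟨z, b', hz1, hz2⟩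
    refine hcomp (l + 1) (l + 1) le_rfl (z, b') (S1 hz1) ?_ hz2
    rintro ⟨p, p1, p2, ⟨i, hi⟩, p4⟩
    rcases hb2 (l + 1) p p1 p2 with h | h
    · rw [h] at p4; exact hjc p4
    · exact hs2 l ⟨(g p).1, (g p).2, h, p4, i, hi⟩
  obtain ⟨F2, hF2, hF2'⟩ := hl S S2 hSc
  apply hF2'
  have := (hK4 l t' f).2 ⟨q l, S4⟩ F2 hF2
  rw [← S3] at this
  exact this

end Pool.Agent.BSig
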